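import Pool.Agent.Results.MP_d37f77_nt.SelmerSetsOverExtensions
import Pool.Agent.X134.Win.TargC
import Pool.Agent.X134.Win.Idx

/-!
# Selmer sets of the members near generic targets of all families in powers of elliptic curves

The following holds for ALL elliptic curves `E : y² = x³ + a x + b` over a number field `K` whose Tate-Shafarevich group
over `K` is killed by some integer (any rank; nothing is assumed over larger fields) and ALL closed subsets `X` of
`E ^ r × ℙ ^ n` over `K` (families of subvarieties `X_y ⊆ E ^ r` with parameter `y`) such that every complex point of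
`E ^ r` is for at most `D` of the `y` a sum of `m` points of `X_y`, `1 ≤ m ≤ M`: for all `η, ε > 0` and for ALL points `y`
in `ℙ ^ n (K)` of large height `H` at distance at most `H ^ (-η)` from a given target `x` there is a level `N ≤ H ^ ε` such
that for ALL extensions `F` of `K` of degree at most `M` the `N`-Selmer set of `X_y` over `F` is empty: finite descent at
the level `N` explains that `X_y` has no points over these fields.

1. For a number field `K` and an arbitrary map of `ℙ ^ n (K)` to a metric space (for instance the affine coordinates in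
one or several completions of `K`) this is proved for all targets outside a set of Hausdorff dimension zero.

2. For every `n` there is one set in `ℂ ^ n` of Hausdorff dimension zero such that this is proved for all number fields
`K`, all embeddings in `ℂ` (and the affine coordinates) and all targets outside this set.

Proof. The starting result `SelmerSetsOverExtensions` gives `O(B ^ ε)` exceptions up to height `B` at a level
depending on `B`; covering argument; the situations are countable in number.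
-/

set_option autoImplicit false

namespace Pool.Agent.Results.MP_d37f77_nt.SelmerSetsNearTargets

open MvPolynomial NumberField IsDedekindDomain MeasureTheory
open Pool.Agent.TH954 (ShaKilledBy)

open scoped LinearAlgebra.Projectivization

/-- the number fields inside a fixed algebraic closure of the rationals -/
abbrev NF : Type := Pool.Agent.X134.Win.NF

/-- for `1 ≤ m ≤ M` each complex point of `E ^ r` is for at most `D` of the complex points `y` a sum of `m` points
of `X_y` -/
def SumsLE {K : Type} [Field K] (σ : K →+* ℂ) (a b : 𝓞 K) {r n q : ℕ}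
    (G : Fin q → MvPolynomial ((Fin r × Fin 3) ⊕ Fin (n + 1)) (𝓞 K)) (M D : ℕ) : Prop :=
  ∀ m, 1 ≤ m → m ≤ M → ∀ S : Fin r → (SelmerSetsOverExtensions.curve (σ a) (σ b)).toAffine.Point,
    {y : ℙ ℂ (Fin (n + 1) → ℂ) | SelmerSetsOverExtensions.IsSum σ a b G m S y.rep}.encard ≤ D

/-- the `N`-Selmer set of `X_y` over `F` is empty for all extensions `F` of `K` of degree at most `M` -/
def EmptySelmer {K : Type} [Field K] [NumberField K] (a b : 𝓞 K) {r n q : ℕ}
    (G : Fin q → MvPolynomial ((Fin r × Fin 3) ⊕ Fin (n + 1)) (𝓞 K)) (M N : ℕ)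
    (y : ℙ K (Fin (n + 1) → K)) : Prop :=
  ∀ (F : Type) [Field F] [NumberField F] [Algebra K F], Module.finrank K F ≤ M →
    SelmerSetsOverExtensions.Sel a b G F N y = ∅

/-- for all `η, ε > 0` and all `y` of large height `H` such that `f y` has distance at most `H ^ (-η)` from `x` the
`N`-Selmer sets of `X_y` are empty for some `N ≤ H ^ ε` -/
def Near {K : Type} [Field K] [NumberField K] {n : ℕ} {X : Type} [MetricSpace X]
    (f : ℙ K (Fin (n + 1) → K) → X) (x : X) (a b : 𝓞 K) {r q : ℕ}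
    (G : Fin q → MvPolynomial ((Fin r × Fin 3) ⊕ Fin (n + 1)) (𝓞 K)) (M : ℕ) : Prop :=
  ∀ η : ℝ, 0 < η → ∀ ε : ℝ, 0 < ε → ∃ H₀ : ℝ, ∀ y : ℙ K (Fin (n + 1) → K), H₀ ≤ y.mulHeight →
    dist (f y) x ≤ y.mulHeight ^ (-η) → ∃ N : ℕ, 1 ≤ N ∧ (N : ℝ) ≤ y.mulHeight ^ ε ∧ EmptySelmer a b G M N y

/-- the assertion for all elliptic curves over `K` and all families with parameters in `ℙ ^ n`, for the map `f` and the
target `x` -/
def Explained {K : Type} [Field K] [NumberField K] {n : ℕ} {X : Type} [MetricSpace X]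
    (f : ℙ K (Fin (n + 1) → K) → X) (x : X) : Prop :=
  ∀ a b : 𝓞 K, 4 * a ^ 3 + 27 * b ^ 2 ≠ 0 → ∀ M₀ : ℕ, 1 ≤ M₀ →
    ShaKilledBy (SelmerSetsOverExtensions.curve (a : K) (b : K)) M₀ → ∀ (r q : ℕ)
    (G : Fin q → MvPolynomial ((Fin r × Fin 3) ⊕ Fin (n + 1)) (𝓞 K))
    (d : Fin q → Fin r → ℕ) (deg : Fin q → ℕ),
    (∀ e, SelmerSetsOverExtensions.MultiHomog (G e) (d e) (deg e)) →
    ∀ (σ : K →+* ℂ) (M D : ℕ), SumsLE σ a b G M D → Near f x a b G M

/-- the affine coordinates of a point of `ℙ ^ n (K)` under the embedding `σ` of `K` -/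
noncomputable def affine {K : Type} [Field K] {n : ℕ} (σ : K →+* ℂ) (y : ℙ K (Fin (n + 1) → K)) : Fin n → ℂ :=
  fun i => σ (y.rep i.succ / y.rep 0)

section Proof

/-- the hypotheses -/
def Hyp (K : Type) [Field K] [NumberField K] {r n q : ℕ} (a b : 𝓞 K)
    (G : Fin q → MvPolynomial ((Fin r × Fin 3) ⊕ Fin (n + 1)) (𝓞 K)) (M : ℕ) : Prop :=
  4 * a ^ 3 + 27 * b ^ 2 ≠ 0 ∧
    (∃ M₀ : ℕ, 1 ≤ M₀ ∧ ShaKilledBy (SelmerSetsOverExtensions.curve (a : K) (b : K)) M₀) ∧
    (∃ (d : Fin q → Fin r → ℕ) (m : Fin q → ℕ),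
      ∀ e, SelmerSetsOverExtensions.MultiHomog (G e) (d e) (m e)) ∧
    ∃ (σ : K →+* ℂ) (D : ℕ), SumsLE σ a b G M D

theorem few (K : Type) [Field K] [NumberField K] {r n q : ℕ} (a b : 𝓞 K)
    (G : Fin q → MvPolynomial ((Fin r × Fin 3) ⊕ Fin (n + 1)) (𝓞 K)) (M : ℕ) :
    Pool.Agent.X134.Win.FewBad (fun y : ℙ K (Fin (n + 1) → K) => y.mulHeight)
      (fun N y => Hyp K a b G M → EmptySelmer a b G M N y) := by
  classical
  by_cases h : Hyp K a b G M
  · obtain ⟨h1, ⟨M₀, hM1, hM⟩, ⟨d, m, h2⟩, σ, D, h3⟩ := id h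
    intro ε hε
    obtain ⟨C, hC⟩ := SelmerSetsOverExtensions.result K a b h1 M₀ hM1 hM r n q G d m h2 σ M D h3 ε hε
    refine ⟨C, fun B hB => ?_⟩
    obtain ⟨N, hN1, hN2, Z, hZ, hg⟩ := hC B hB
    exact ⟨N, hN1, hN2, Z, hZ, fun y hy hyZ _ F _ _ _ hF => hg y hy hyZ F hF⟩
  · exact Pool.Agent.X134.Win.fewBad_trivial _ _ fun N y h' => absurd h' h

/-- the index set -/
abbrev I (K : Type) [Field K] [NumberField K] (n : ℕ) : Type := Σ r : ℕ, Σ q : ℕ, (𝓞 K × 𝓞 K) ×
  (Fin q → MvPolynomial ((Fin r × Fin 3) ⊕ Fin (n + 1)) (𝓞 K)) × ℕ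

theorem countable_I (K : Type) [Field K] [NumberField K] (n : ℕ) : Countable (I K n) := by
  have h1 : Countable (𝓞 K) := Pool.Agent.X134.Win.countable_integers K
  have h2 : ∀ r, Countable (MvPolynomial ((Fin r × Fin 3) ⊕ Fin (n + 1)) (𝓞 K)) := fun r =>
    Pool.Agent.X134.Win.countable_mvPolynomial _ _
  infer_instance

/-- the property -/
def P {K : Type} [Field K] [NumberField K] {n : ℕ} : I K n → ℕ → ℙ K (Fin (n + 1) → K) → Prop
  | ⟨_, _, (a, b), G, M⟩ => fun N y => Hyp K a b G M → EmptySelmer a b G M N y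

end Proof

/-- **Theorem.** (1) Let `K` be a number field and `f` an arbitrary map of `ℙ ^ n (K)` to a metric space `X` (with its
Borel sets). There is a set `A ⊆ X` of Hausdorff dimension zero such that `Explained f x` for all `x ∉ A`. (2) For every
`n` there is a set `A ⊆ ℂ ^ n` of Hausdorff dimension zero such that `Explained (affine σ) x` for all `x ∉ A`, all number
fields `K` and all embeddings `σ` of `K` in `ℂ`. -/
theorem result :
    (∀ (K : Type) [Field K] [NumberField K] (n : ℕ) (X : Type) [MetricSpace X] [MeasurableSpace X] [BorelSpace X]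
      (f : ℙ K (Fin (n + 1) → K) → X), ∃ A : Set X, dimH A = 0 ∧ ∀ x : X, x ∉ A → Explained f x) ∧
    (∀ n : ℕ, ∃ A : Set (Fin n → ℂ), dimH A = 0 ∧ ∀ x : Fin n → ℂ, x ∉ A → ∀ (K : NF) (σ : K.1 →+* ℂ),
      Explained (n := n) (affine σ) x) := by
  have part1 : ∀ (K : Type) [Field K] [NumberField K] (n : ℕ) (X : Type) [MetricSpace X] [MeasurableSpace X]
      [BorelSpace X] (f : ℙ K (Fin (n + 1) → K) → X), ∃ A : Set X, dimH A = 0 ∧
      ∀ x : X, x ∉ A → Explained f x := by
    intro K _ _ n X _ _ _ f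
    have := countable_I K n
    obtain ⟨A, hA, H⟩ := Pool.Agent.X134.Win.targets_c (X := X) (ι := I K n)
      (T := fun _ => ℙ K (Fin (n + 1) → K)) (fun _ => f) (fun _ y => y.mulHeight) P
      (by rintro ⟨r, q, ⟨a, b⟩, G, M⟩; exact few K a b G M)
    refine ⟨A, hA, fun x hx a b hab M₀ hM1 hM r q G d deg hG σ M D hX η hη ε hε => ?_⟩
    obtain ⟨h₀, hh⟩ := H x hx ⟨r, q, (a, b), G, M⟩ η hη ε hε
    refine ⟨h₀, fun y hy hyx => ?_⟩
    obtain ⟨N, hN1, hN2, hg⟩ := hh y hy hyx
    exact ⟨N, hN1, hN2, hg ⟨hab, ⟨M₀, hM1, hM⟩, ⟨d, deg, hG⟩, σ, D, hX⟩⟩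
  refine ⟨part1, fun n => ?_⟩
  choose A hA1 hA2 using fun i : (Σ K : NF, (K.1 →+* ℂ)) => part1 i.1.1 n (Fin n → ℂ) (affine i.2)
  have hfin : ∀ K : NF, Countable (K.1 →+* ℂ) := fun K => by
    have : Finite (K.1 →+* ℂ) := inferInstance
    infer_instance
  refine ⟨⋃ i, A i, by rw [dimH_iUnion]; simp [hA1], fun x hx K σ => ?_⟩
  exact hA2 ⟨K, σ⟩ x (fun h => hx (Set.mem_iUnion.2 ⟨_, h⟩))

end Pool.Agent.Results.MP_d37f77_nt.SelmerSetsNearTargets
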