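import Pool.Agent.X20.Tr.UpLog
import Pool.Agent.Results.MP_d37f77_nt.AlmostAllTwists

/-!
# 2-descent on the quadratic twists by `± ⌊α n ^ c⌋`

From Mathlib: `dimH E`: the Hausdorff dimension; `⌊x⌋₊`: the integer part; `Finset.Icc 1 N`: the integers from `1` to
`N`. From the team's `AlmostAllTwists` (its definitions are used as they are): `Adm f`: the `f k ∈ ℤ[x]` are irreducible
over `ℚ`, of even degrees and pairwise non-associated; `CurveHasPoint f d L`: the curve `C_d : d y ^ 2 = ∏ k, F_k(x, w)`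
has a point over the field `L` (`F_k` the homogenisation of `f k`); `SelmerNonempty f d`: some 2-covering
`F_k(x, w) = δ_k y_k ^ 2` (all `k`, with nonzero integers `δ_k` such that `d ∏ δ_k` is a square) of `C_d` has points over
`ℝ` and over `ℚ_p` for all primes `p`; `ex`: the system `X² - 13`, `(X - 1)² - 17`, `(X - 2)² - 221`.
-/

set_option autoImplicit false

namespace Pool.Agent.Results.MP_d37f77_nt.SparseTwists

open Finset Filter Polynomial
open Pool.Agent.X20.Tr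
open Pool.Agent.Y854.PS (ms xs)
open Pool.Agent.Results.MP_d37f77_nt.AlmostAllTwists (Adm CurveHasPoint SelmerNonempty ex)

/-- the twists for which descent does not show that there are no rational points -/
def Bad (k : ℕ) (f : Fin k → ℤ[X]) (s : ℤ) (m : ℕ) : Prop := Squarefree m ∧ SelmerNonempty f (s * (m : ℤ))

lemma cnt_le (k : ℕ) (f : Fin k → ℤ[X]) (hf : Adm f) (s : ℤ) (hs : s = 1 ∨ s = -1) : ∃ δ : ℝ, 0 < δ ∧ ∃ C : ℝ,
    ∃ X₁ : ℕ, ∀ X : ℕ, X₁ ≤ X → (cnt {m | Bad k f s m} X : ℝ) ≤ C * X * (Real.log X) ^ (-δ) := by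
  classical
  obtain ⟨δ, hδ, C, hC⟩ := (AlmostAllTwists.result.1 (Fin k) f hf).1
  refine ⟨δ, hδ, C, 2, fun X hX => le_trans ?_ (hC X hX)⟩
  obtain ⟨T, hT⟩ : ∃ T : Set ℤ, T = {d : ℤ | d.natAbs ≤ X ∧ Squarefree d ∧ SelmerNonempty f d} := ⟨_, rfl⟩
  rw [← hT]
  have hTfin : T.Finite := by
    refine (Set.finite_Icc (-(X : ℤ)) X).subset ?_
    intro d hd
    rw [hT] at hd
    have := hd.1
    constructor <;> omega
  have hs0 : s ≠ 0 := by rcases hs with rfl | rfl <;> norm_num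
  have hsa : s.natAbs = 1 := by rcases hs with rfl | rfl <;> rfl
  have h3 : (((Icc 1 X).filter (fun m : ℕ => m ∈ {m | Bad k f s m})).image (fun m : ℕ => s * (m : ℤ))) ⊆
      hTfin.toFinset := by
    intro d hd
    rw [mem_image] at hd
    obtain ⟨m, hm, rfl⟩ := hd
    rw [mem_filter, mem_Icc] at hm
    obtain ⟨⟨hm1, hm2⟩, hm3, hm4⟩ := hm
    rw [Set.Finite.mem_toFinset, hT]
    refine ⟨?_, ?_, hm4⟩
    · rw [Int.natAbs_mul, hsa, one_mul, Int.natAbs_natCast]
      exact hm2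
    · rw [← Int.squarefree_natAbs, Int.natAbs_mul, hsa, one_mul, Int.natAbs_natCast]
      exact hm3
  have h4 := card_le_card h3
  rw [card_image_of_injective] at h4
  · have h5 : cnt {m | Bad k f s m} X ≤ T.ncard := by
      rw [Set.ncard_eq_toFinset_card T hTfin]
      refine le_trans (le_of_eq ?_) h4
      unfold cnt
      exact card_filt _ fun _ => Iff.rfl
    exact_mod_cast h5
  · intro m m' h
    have h' : s * (m : ℤ) = s * (m' : ℤ) := h
    have := mul_left_cancel₀ hs0 h'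
    exact_mod_cast this

lemma sf_lower : ∃ x₀ : ℕ, ∀ x : ℕ, x₀ ≤ x → (1 : ℝ) / 12 * x ≤ (cnt {m | Squarefree m} x : ℝ) := by
  classical
  refine ⟨6, fun X hX => ?_⟩
  have h1 := card_sqf X hX
  have h2 : ((Icc 1 X).filter (fun m => m % 4 = 3 ∧ Squarefree m)).card ≤ cnt {m | Squarefree m} X := by
    unfold cnt
    apply card_le_card
    intro m hm
    rw [mem_filter] at hm
    exact mem_filt.2 ⟨hm.1, hm.2.2⟩
  have h3 : (((Icc 1 X).filter (fun m => m % 4 = 3 ∧ Squarefree m)).card : ℝ) ≤ cnt {m | Squarefree m} X := by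
    exact_mod_cast h2
  linarith

open Classical in
/-- For every real `c > 1` there are `κ > 0` and a set `E` of real numbers of Hausdorff dimension at most `1 - κ`
such that for every real `α > 0` outside `E`, writing `m(n) = ⌊α n ^ c⌋`:

* for all large `N` at least `N / 24` of the `m(n)`, `n ≤ N`, are squarefree;
* for EVERY admissible system `f` and both signs, for some `δ > 0` and `C`: for all large `N`, for all but at most
  `C N (log N) ^ (-δ)` of the `n ≤ N` with squarefree `m(n)` no 2-covering of the curve `C_d`, `d = ± m(n)`, has points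
  everywhere locally, so that `C_d` has no rational points, and this is explained by 2-descent;
* for the example the curves `C_d` have points everywhere locally, for every `d`. -/
theorem result (c : ℝ) (hc : 1 < c) : ∃ κ : ℝ, 0 < κ ∧ κ < 1 ∧ ∃ E : Set ℝ, dimH E ≤ ENNReal.ofReal (1 - κ) ∧
    ∀ α : ℝ, 0 < α → α ∉ E →
      (∃ N₀ : ℕ, ∀ N : ℕ, N₀ ≤ N →
        (N : ℝ) / 24 ≤ (((Icc 1 N).filter (fun n : ℕ => Squarefree ⌊α * (n : ℝ) ^ c⌋₊)).card : ℝ)) ∧
      (∀ (k : ℕ) (f : Fin k → ℤ[X]), Adm f → ∀ s : ℤ, (s = 1 ∨ s = -1) →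
        (∃ δ : ℝ, 0 < δ ∧ ∃ C : ℝ, ∃ N₀ : ℕ, ∀ N : ℕ, N₀ ≤ N →
          (((Icc 1 N).filter (fun n : ℕ => Squarefree ⌊α * (n : ℝ) ^ c⌋₊ ∧
            SelmerNonempty f (s * ((⌊α * (n : ℝ) ^ c⌋₊ : ℕ) : ℤ)))).card : ℝ) ≤ C * N * (Real.log N) ^ (-δ)) ∧
        (∀ n : ℕ, CurveHasPoint f (s * ((⌊α * (n : ℝ) ^ c⌋₊ : ℕ) : ℤ)) ℚ →
          SelmerNonempty f (s * ((⌊α * (n : ℝ) ^ c⌋₊ : ℕ) : ℤ)))) ∧
      (Adm ex ∧ ∀ d : ℤ, CurveHasPoint ex d ℝ ∧ ∀ (p : ℕ) [Fact p.Prime], CurveHasPoint ex d ℚ_[p]) := by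
  obtain ⟨κ, hκ0, hκ1, H⟩ := use c hc
  have hcount : Countable ((k : ℕ) × (Fin k → ℤ[X])) := by
    have : Countable ℤ[X] := by
      rw [← Cardinal.mk_le_aleph0_iff]
      refine Polynomial.cardinalMk_le_max.trans ?_
      rw [max_le_iff]
      exact ⟨Cardinal.mk_le_aleph0_iff.2 inferInstance, le_refl _⟩
    infer_instance
  obtain ⟨E, hE, h⟩ := H (fun _ _ => {m | Squarefree m}) (((k : ℕ) × (Fin k → ℤ[X])) × ℤ)
    (fun i => {m | Bad i.1.1 i.1.2 i.2 m})
  refine ⟨κ, hκ0, hκ1, E, hE, fun α hα hαE => ⟨?_, ?_, AlmostAllTwists.result.2⟩⟩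
  · obtain ⟨_, h2, _⟩ := h α hα hαE
    obtain ⟨x₀, hx⟩ := sf_lower
    obtain ⟨N₀, h4⟩ := low_set hc hα hκ0 (h2 0 0) (1 / 12) (by norm_num) ⟨x₀, fun x hxx => by
      have := hx x hxx
      unfold cnt at this
      convert this⟩
    refine ⟨N₀, fun N hN => ?_⟩
    have h5 := h4 N hN
    refine le_trans (by linarith) (h5.trans (le_of_eq ?_))
    exact congrArg Nat.cast (card_filt _ fun _ => Iff.rfl)
  · intro k f hf s hs
    obtain ⟨_, _, h3⟩ := h α hα hαE
    refine ⟨?_, fun n => (AlmostAllTwists.result.1 (Fin k) f hf).2 _⟩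
    obtain ⟨δ, hδ, C, X₁, h4⟩ := cnt_le k f hf s hs
    obtain ⟨C', _, N₀, h5⟩ := up_log hc hα hκ0 hδ (h3 (⟨k, f⟩, s)) ⟨C, X₁, h4⟩
    refine ⟨δ, hδ, C', N₀, fun N hN => ?_⟩
    exact le_trans (le_of_eq (congrArg Nat.cast (hit_form c α (fun m : ℕ => Bad k f s m) N))) (h5 N hN)

end Pool.Agent.Results.MP_d37f77_nt.SparseTwists
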