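import Pool.Agent.X20.Tr.Sqf
import Pool.Agent.Results.MP_d37f77_nt.TwoDescentMixedFactors

/-!
# 2-descent on the quadratic twists by `± ⌊α n ^ c⌋`, factors of any degrees

From Mathlib: `dimH E`: the Hausdorff dimension; `⌊x⌋₊`: the integer part; `Finset.Icc 1 N`: the integers from `1` to
`N`. From the team's `TwoDescentMixedFactors` (its definitions are used as they are): `Factors f`: the `f k ∈ ℤ[x]` are
irreducible over `ℚ`, pairwise non-associated, of even total degree, and at least four of them have odd degree;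
`General f`: a condition on the values of the `f k` at the zeros of the linear ones among them (empty if there are none);
`Soluble f d D`: the covering `F_k(x, w) = D_k y_k ^ 2` (all `k`) of `C_d : d y ^ 2 = ∏ k, F_k(x, w)` has points everywhere
locally; `ConstantType f D`: it lies over a rational Weierstrass point of `C_d`; `CurveHasPoint f d L`: `C_d` has a point
over `L`; `ex`: the system `X² + X + 1`, `X³ - 2`, `X³ - 3`, `X³ - 5`, `X³ - 19`.
-/

set_option autoImplicit false

namespace Pool.Agent.Results.MP_d37f77_nt.SparseTwistsMixedFactors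

open Finset Filter Polynomial
open Pool.Agent.X20.Tr
open Pool.Agent.Results.MP_d37f77_nt.TwoDescentMixedFactors (Factors General Soluble ConstantType CurveHasPoint ex)

/-- some 2-covering of `C_d` with points everywhere locally does not lie over a rational Weierstrass point -/
def NewCovering {k : ℕ} (f : Fin k → ℤ[X]) (d : ℤ) : Prop := ∃ D : Fin k → ℤ, Soluble f d D ∧ ¬ ConstantType f D

open Classical in
/-- For every real `c > 1` there are `κ > 0` and a set `E` of real numbers of Hausdorff dimension at most `1 - κ`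
such that for every real `α > 0` outside `E`, writing `m(n) = ⌊α n ^ c⌋`:

* for all large `N` at least `N / 24` of the `m(n)`, `n ≤ N`, are squarefree;
* for EVERY system `f` with `Factors f` and `General f` and both signs, for some `δ > 0` and `C`: for all large `N`, for
  all but at most `C N (log N) ^ (-δ)` of the `n ≤ N` with squarefree `m(n)` every 2-covering of `C_d`, `d = ± m(n)`, with
  points everywhere locally lies over a rational Weierstrass point of `C_d`;
* if no `f k` is linear, then for all but so many `n` there is no 2-covering of `C_d` with points everywhere locally (and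
  whenever `C_d` has a rational point there is one);
* the system `ex` is of this last kind, and its curves `C_d` have points everywhere locally for all `d`. -/
theorem result (c : ℝ) (hc : 1 < c) : ∃ κ : ℝ, 0 < κ ∧ κ < 1 ∧ ∃ E : Set ℝ, dimH E ≤ ENNReal.ofReal (1 - κ) ∧
    ∀ α : ℝ, 0 < α → α ∉ E →
      (∃ N₀ : ℕ, ∀ N : ℕ, N₀ ≤ N →
        (N : ℝ) / 24 ≤ (((Icc 1 N).filter (fun n : ℕ => Squarefree ⌊α * (n : ℝ) ^ c⌋₊)).card : ℝ)) ∧
      (∀ (k : ℕ) (f : Fin k → ℤ[X]), Factors f → General f →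
        ∃ δ : ℝ, 0 < δ ∧ ∀ s : ℤ, (s = 1 ∨ s = -1) → ∃ C : ℝ, ∃ N₀ : ℕ, ∀ N : ℕ, N₀ ≤ N →
          (((Icc 1 N).filter (fun n : ℕ => Squarefree ⌊α * (n : ℝ) ^ c⌋₊ ∧
            NewCovering f (s * ((⌊α * (n : ℝ) ^ c⌋₊ : ℕ) : ℤ)))).card : ℝ) ≤ C * N * (Real.log N) ^ (-δ)) ∧
      (∀ (k : ℕ) (f : Fin k → ℤ[X]), Factors f → (∀ i, (f i).natDegree ≠ 1) →
        (∃ δ : ℝ, 0 < δ ∧ ∀ s : ℤ, (s = 1 ∨ s = -1) → ∃ C : ℝ, ∃ N₀ : ℕ, ∀ N : ℕ, N₀ ≤ N →
          (((Icc 1 N).filter (fun n : ℕ => Squarefree ⌊α * (n : ℝ) ^ c⌋₊ ∧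
            ∃ D : Fin k → ℤ, Soluble f (s * ((⌊α * (n : ℝ) ^ c⌋₊ : ℕ) : ℤ)) D)).card : ℝ) ≤
              C * N * (Real.log N) ^ (-δ)) ∧
        ∀ d : ℤ, CurveHasPoint f d ℚ → ∃ D : Fin k → ℤ, Soluble f d D) ∧
      (Factors ex ∧ (∀ i, (ex i).natDegree ≠ 1) ∧
        ∀ d : ℤ, CurveHasPoint ex d ℝ ∧ ∀ (p : ℕ) [Fact p.Prime], CurveHasPoint ex d ℚ_[p]) := by
  obtain ⟨κ, hκ0, hκ1, H⟩ := sparse_sqf c hc
  have := countable_systems
  obtain ⟨E, hE, h⟩ := H (((k : ℕ) × (Fin k → ℤ[X])) × Bool)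
    (fun i d => if i.2 then NewCovering i.1.2 d else ∃ D, Soluble i.1.2 d D)
  refine ⟨κ, hκ0, hκ1, E, hE, fun α hα hαE => ⟨(h α hα hαE).1, fun k f hf hg => ?_, fun k f hf hl => ⟨?_, ?_⟩,
    TwoDescentMixedFactors.result.2.2⟩⟩
  · obtain ⟨δ, hδ, C, hC⟩ := (TwoDescentMixedFactors.result.1 (Fin k) f hf hg).1
    refine ⟨δ, hδ, fun s hs => ?_⟩
    have h2 := (h α hα hαE).2 (⟨k, f⟩, true) s hs δ C hδ ⟨3, fun X hX => by simpa [NewCovering] using hC X hX⟩
    simpa using h2
  · obtain ⟨δ, hδ, C, hC⟩ := (TwoDescentMixedFactors.result.2.1 (Fin k) f hf hl).1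
    refine ⟨δ, hδ, fun s hs => ?_⟩
    have h2 := (h α hα hαE).2 (⟨k, f⟩, false) s hs δ C hδ ⟨3, fun X hX => by simpa using hC X hX⟩
    simpa using h2
  · exact (TwoDescentMixedFactors.result.2.1 (Fin k) f hf hl).2

end Pool.Agent.Results.MP_d37f77_nt.SparseTwistsMixedFactors
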